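import Pool.Agent.helper34.FJ3.Defs
import Pool.Agent.helper91.LT.TreeMem

set_option autoImplicit false

/-!
# Groups acting on simply connected complexes without triangles (module A2)

A group `L` acting on a simply connected complex without triangles (a tree), with types and with a
homomorphism to `ℤ` which is injective on the stabilisers of the vertices, acts freely on the
product of the tree and the line. The product complex and its curvature are taken from
`Pool.Agent.helper91.LT.TreeMem`.
-/

namespace Pool.Agent.helper84.FJ3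

open Pool.Agent.helper34 Pool.Agent.helper34.FJ2 Pool.Agent.helper34.FJ3
open Pool.Agent.helper91.LT

variable {V : Type}

/-- the horizontal lift of a path to the level `k` -/
def hm (k : ℤ) (l : List V) : List (V × ℤ) := l.map fun v => (v, k)

theorem hm_nil (k : ℤ) : hm k ([] : List V) = [] := rfl

theorem hm_cons (k : ℤ) (v : V) (l : List V) : hm k (v :: l) = (v, k) :: hm k l := rfl

theorem hm_append (k : ℤ) (l m : List V) : hm k (l ++ m) = hm k l ++ hm k m := List.map_append

theorem hm_endp (k : ℤ) (x : V) (l : List V) : endp (x, k) (hm k l) = (endp x l, k) := by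
  induction l generalizing x with
  | nil => rfl
  | cons b l ih => exact ih b

section

variable {par : V → V → Prop} {hp : ∀ x p, par x p → ¬ par p x} {X : Complex2 V}

theorem hor_edge (hX : ∀ a b, X.edge a b → par a b ∨ par b a) (k : ℤ) {a b : V}
    (h : X.edge a b) : (pcx par hp).edge (a, k) (b, k) := by
  rcases hX a b h with h | h
  · exact Or.inl (Or.inr ⟨h, Or.inl rfl⟩)
  · exact Or.inr (Or.inr ⟨h, Or.inl rfl⟩)

theorem hm_isPath (hX : ∀ a b, X.edge a b → par a b ∨ par b a) (k : ℤ) {x : V} {l : List V}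
    (h : IsPath X x l) : IsPath (pcx par hp) (x, k) (hm k l) := by
  induction l generalizing x with
  | nil => trivial
  | cons b l ih => exact ⟨hor_edge hX k h.1, ih h.2⟩

theorem hm_htpy (hX : ∀ a b, X.edge a b → par a b ∨ par b a) (h0 : ∀ a b c, ¬ X.tri a b c)
    (k : ℤ) {x : V} {l m : List V} (h : Htpy X x l m) :
    Htpy (pcx par hp) (x, k) (hm k l) (hm k m) := by
  induction h with
  | refl => exact Htpy.refl _ _
  | symm _ _ _ _ ih => exact ih.symm
  | trans _ _ _ _ _ _ ih1 ih2 => exact ih1.trans _ _ _ _ ih2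
  | cons _ _ _ _ _ ih => exact Htpy.cons _ _ _ _ ih
  | spur a b l h => exact Htpy.spur _ _ _ (hor_edge hX k h)
  | tri a b c l h => exact absurd h (h0 _ _ _)

theorem step_up (x y : V) (k j : ℤ) (m : List V) (hm' : endp x m = y) :
    Htpy (pcx par hp) (x, k) (hm k m ++ vp y k (j - k) ++ [(y, j + 1)])
      (hm k m ++ vp y k (j + 1 - k)) := by
  rw [List.append_assoc]
  apply Htpy.append_left
  rw [hm_endp, hm']
  have h := vp_up (par := par) (hp := hp) y k (j - k)
  have e1 : k + (j - k) + 1 = j + 1 := by ring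
  have e2 : j - k + 1 = j + 1 - k := by ring
  rw [e1, e2] at h
  exact h

theorem step_down (x y : V) (k j : ℤ) (m : List V) (hm' : endp x m = y) :
    Htpy (pcx par hp) (x, k) (hm k m ++ vp y k (j + 1 - k) ++ [(y, j)])
      (hm k m ++ vp y k (j - k)) := by
  rw [List.append_assoc]
  apply Htpy.append_left
  rw [hm_endp, hm']
  have h := vp_down (par := par) (hp := hp) y k (j - k)
  have e1 : k + (j - k) = j := by ring
  have e2 : j - k + 1 = j + 1 - k := by ring
  rw [e1, e2] at h
  exact h

theorem step_hor (x y z : V) (k j : ℤ) (m : List V) (hm' : endp x m = y)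
    (h : par y z ∨ par z y) :
    Htpy (pcx par hp) (x, k) (hm k m ++ vp y k (j - k) ++ [(z, j)])
      (hm k (m ++ [z]) ++ vp z k (j - k)) := by
  rw [List.append_assoc, hm_append, List.append_assoc]
  apply Htpy.append_left
  rw [hm_endp, hm']
  have h1 := ladder (hp := hp) h k (j - k)
  have e1 : k + (j - k) = j := by ring
  rw [e1] at h1
  exact h1

theorem exists_nf (hX : ∀ a b, par a b → X.edge a b) (x : V) (k : ℤ)
    (l : List (V × ℤ)) (hl : IsPath (pcx par hp) (x, k) l) :
    ∃ m : List V, IsPath X x m ∧ endp x m = (endp (x, k) l).1 ∧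
      Htpy (pcx par hp) (x, k) l
        (hm k m ++ vp (endp (x, k) l).1 k ((endp (x, k) l).2 - k)) := by
  induction l using List.reverseRecOn with
  | nil =>
    refine ⟨[], trivial, rfl, ?_⟩
    simp only [endp_nil, hm_nil, List.nil_append, sub_self, vp_zero]
    exact Htpy.refl _ _
  | append_singleton l w ih =>
    rw [isPath_append] at hl
    obtain ⟨m, hm1, hm2, hm3⟩ := ih hl.1
    have he : (pcx par hp).edge (endp (x, k) l) w := hl.2.1
    have h1 := hm3.append_right [w]
    rw [endp_append]
    change ∃ m : List V, IsPath X x m ∧ endp x m = w.1 ∧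
      Htpy (pcx par hp) (x, k) (l ++ [w]) (hm k m ++ vp w.1 k (w.2 - k))
    generalize endp (x, k) l = u at *
    obtain ⟨y, j⟩ := u
    obtain ⟨z, i⟩ := w
    simp only at hm1 hm2 hm3 h1 he ⊢
    have hpath : ∀ z, (par y z ∨ par z y) → IsPath X x (m ++ [z]) ∧ endp x (m ++ [z]) = z := by
      intro z hz
      refine ⟨(isPath_append _ _ _ _).2 ⟨hm1, ?_, trivial⟩, by simp⟩
      rw [hm2]
      exact hz.elim (hX _ _) fun h => X.edge_symm _ _ (hX _ _ h)
    rcases he with (⟨e1, e2⟩ | ⟨e1, e2 | e2⟩) | (⟨e1, e2⟩ | ⟨e1, e2 | e2⟩)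
    · simp only at e1 e2
      subst e1 e2
      exact ⟨m, hm1, hm2, h1.trans _ _ _ _ (step_up x y k j m hm2)⟩
    · simp only at e1 e2
      subst e2
      obtain ⟨p1, p2⟩ := hpath z (Or.inl e1)
      exact ⟨m ++ [z], p1, p2, h1.trans _ _ _ _ (step_hor x y z k i m hm2 (Or.inl e1))⟩
    · simp only at e1 e2
      subst e2
      obtain ⟨p1, p2⟩ := hpath z (Or.inl e1)
      have t : (pcx par hp).tri (y, j) (z, j) (z, j + 1) :=
        Or.inl ⟨e1, rfl, Or.inr ⟨rfl, rfl⟩⟩
      have h2 : Htpy (pcx par hp) (x, k) (hm k m ++ vp y k (j - k) ++ [(z, j + 1)])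
          (hm k m ++ vp y k (j - k) ++ [(z, j), (z, j + 1)]) := by
        apply Htpy.append_left
        have : endp (x, k) (hm k m ++ vp y k (j - k)) = (y, j) := by
          rw [endp_append, hm_endp, hm2, vp_endp]
          congr 1
          ring
        rw [this]
        exact (Htpy.tri _ _ _ [] t).symm
      have h3 := (step_hor (hp := hp) x y z k j m hm2 (Or.inl e1)).append_right [(z, j + 1)]
      rw [List.append_assoc (hm k m ++ vp y k (j - k))] at h3
      exact ⟨m ++ [z], p1, p2, ((h1.trans _ _ _ _ h2).trans _ _ _ _ h3).trans _ _ _ _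
        (step_up x z k j (m ++ [z]) p2)⟩
    · simp only at e1 e2
      subst e1 e2
      exact ⟨m, hm1, hm2, h1.trans _ _ _ _ (step_down x z k i m hm2)⟩
    · simp only at e1 e2
      subst e2
      obtain ⟨p1, p2⟩ := hpath z (Or.inr e1)
      exact ⟨m ++ [z], p1, p2, h1.trans _ _ _ _ (step_hor x y z k j m hm2 (Or.inr e1))⟩
    · simp only at e1 e2
      subst e2
      obtain ⟨p1, p2⟩ := hpath z (Or.inr e1)
      have t : (pcx par hp).tri (z, i) (y, i) (y, i + 1) :=
        Or.inl ⟨e1, rfl, Or.inr ⟨rfl, rfl⟩⟩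
      have t' : (pcx par hp).tri (y, i + 1) (y, i) (z, i) :=
        (pcx par hp).tri_swap _ _ _ ((pcx par hp).tri_rot _ _ _ t)
      have h2 : Htpy (pcx par hp) (x, k) (hm k m ++ vp y k (i + 1 - k) ++ [(z, i)])
          (hm k m ++ vp y k (i + 1 - k) ++ [(y, i), (z, i)]) := by
        apply Htpy.append_left
        have : endp (x, k) (hm k m ++ vp y k (i + 1 - k)) = (y, i + 1) := by
          rw [endp_append, hm_endp, hm2, vp_endp]
          congr 1
          ring
        rw [this]
        exact (Htpy.tri _ _ _ [] t').symm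
      have h3 := (step_down (hp := hp) x y k i m hm2).append_right [(z, i)]
      rw [List.append_assoc (hm k m ++ vp y k (i + 1 - k))] at h3
      exact ⟨m ++ [z], p1, p2, ((h1.trans _ _ _ _ h2).trans _ _ _ _ h3).trans _ _ _ _
        (step_hor x y z k i m hm2 (Or.inr e1))⟩

theorem sc_product (hX : ∀ a b, X.edge a b → par a b ∨ par b a)
    (hX' : ∀ a b, par a b → X.edge a b) (h0 : ∀ a b c, ¬ X.tri a b c)
    (hs : SimplyConnected X) : SimplyConnected (pcx par hp) := by
  obtain ⟨⟨x⟩, hc, hl⟩ := hs
  refine ⟨⟨(x, 0)⟩, ?_, ?_⟩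
  · rintro ⟨y, j⟩ ⟨z, i⟩
    obtain ⟨m, h1, h2⟩ := hc y z
    refine ⟨hm j m ++ vp z j (i - j), ?_, ?_⟩
    · rw [isPath_append]
      refine ⟨hm_isPath hX j h1, ?_⟩
      rw [hm_endp, h2]
      exact vp_isPath _ _ _
    · rw [endp_append, hm_endp, h2, vp_endp]
      congr 1
      ring
  · rintro ⟨y, j⟩ l hp' he
    obtain ⟨m, h1, h2, h3⟩ := exists_nf hX' y j l hp'
    rw [he] at h2 h3
    simp only [sub_self, vp_zero, List.append_nil] at h2 h3
    exact h3.trans _ _ _ _ (hm_htpy hX h0 j (hl y m h1 h2))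

end

theorem tree_case {P : ∀ (G : Type) [Group G], Prop} (hP : Closed P) {L V K : Type} [Group L]
    [MulAction L V] (X : Complex2 V)
    (τ : V → K) (hi : Inv L X) (hτ : ∀ a b, X.edge a b → τ a ≠ τ b)
    (ht : ∀ (g : L) (a : V), τ (g • a) = τ a) (hs : SimplyConnected X)
    (h0 : ∀ a b c, ¬ X.tri a b c) (φ : L →* Multiplicative ℤ)
    (hφ : ∀ (v : V) (g : L), g • v = v → φ g = 1 → g = 1) : P L := by
  let par : V → V → Prop := fun a b => X.edge a b ∧ WellOrderingRel (τ a) (τ b)
  have hp : ∀ x p, par x p → ¬ par p x := fun x p h h' => asymm h.2 h'.2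
  have hX : ∀ a b, X.edge a b → par a b ∨ par b a := by
    intro a b h
    rcases trichotomous_of WellOrderingRel (τ a) (τ b) with h1 | h1 | h1
    · exact Or.inl ⟨h, h1⟩
    · exact absurd h1 (hτ a b h)
    · exact Or.inr ⟨X.edge_symm _ _ h, h1⟩
  have hinv : ∀ (g : L) (a b : V), par a b → par (g • a) (g • b) := by
    rintro g a b ⟨h1, h2⟩
    refine ⟨hi.edge g a b h1, ?_⟩
    rw [ht, ht]
    exact h2
  let act : MulAction L (V × ℤ) :=
    { smul := fun n w => (n • w.1, w.2 + Multiplicative.toAdd (φ n))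
      one_smul := by
        intro w
        change ((1 : L) • w.1, w.2 + Multiplicative.toAdd (φ 1)) = w
        simp
      mul_smul := by
        intro m n w
        change ((m * n) • w.1, w.2 + Multiplicative.toAdd (φ (m * n))) =
          (m • (n • w.1), w.2 + Multiplicative.toAdd (φ n) + Multiplicative.toAdd (φ m))
        rw [mul_smul, map_mul, toAdd_mul]
        congr 1
        ring }
  have hsm : ∀ (n : L) (w : V × ℤ), n • w = (n • w.1, w.2 + Multiplicative.toAdd (φ n)) :=
    fun _ _ => rfl
  have hD : ∀ (n : L) (v w : V × ℤ), D par v w → D par (n • v) (n • w) := by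
    rintro n v w (⟨h1, h2⟩ | ⟨h1, h2⟩)
    · left
      rw [hsm, hsm]
      exact ⟨by simp only [h1], by simp only [h2]; ring⟩
    · right
      rw [hsm, hsm]
      refine ⟨hinv n _ _ h1, ?_⟩
      simp only
      omega
  have hT0 : ∀ (n : L) (a b c : V × ℤ), T0 par a b c → T0 par (n • a) (n • b) (n • c) := by
    rintro n a b c ⟨h1, h2, h3⟩
    rw [hsm, hsm, hsm]
    refine ⟨hinv n _ _ h1, by simp only; omega, ?_⟩
    rcases h3 with ⟨h3, h4⟩ | ⟨h3, h4⟩
    · left
      exact ⟨by simp only [h3], by simp only; omega⟩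
    · right
      exact ⟨by simp only [h3], by simp only; omega⟩
  refine closed_proper (P := P) hP.closed2 (pcx par hp) plen
    (sc_product hX (fun _ _ h => h.1) h0 hs) (npc hp) ?_
  refine ⟨?_, ?_, ?_, ?_⟩
  · rintro n a b (h | h)
    · exact Or.inl (hD n _ _ h)
    · exact Or.inr (hD n _ _ h)
  · rintro n a b c (h | h | h | h | h | h)
    · exact Or.inl (hT0 n _ _ _ h)
    · exact Or.inr (Or.inl (hT0 n _ _ _ h))
    · exact Or.inr (Or.inr (Or.inl (hT0 n _ _ _ h)))
    · exact Or.inr (Or.inr (Or.inr (Or.inl (hT0 n _ _ _ h))))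
    · exact Or.inr (Or.inr (Or.inr (Or.inr (Or.inl (hT0 n _ _ _ h)))))
    · exact Or.inr (Or.inr (Or.inr (Or.inr (Or.inr (hT0 n _ _ _ h)))))
  · intro n a b _
    classical
    unfold plen
    rw [hsm, hsm]
    have : (n • a.1 = n • b.1 ∨ a.2 + Multiplicative.toAdd (φ n) = b.2 + Multiplicative.toAdd (φ n))
        ↔ (a.1 = b.1 ∨ a.2 = b.2) := by
      rw [add_left_inj]
      constructor
      · rintro (h | h)
        · exact Or.inl (MulAction.injective n h)
        · exact Or.inr h
      · rintro (h | h)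
        · exact Or.inl (by rw [h])
        · exact Or.inr h
    simp only [this]
  · intro v
    refine Set.Finite.subset (Set.finite_singleton (1 : L)) ?_
    intro n hn
    have h1 : n • v = v := hn
    rw [hsm] at h1
    have h2 := congrArg Prod.fst h1
    have h3 := congrArg Prod.snd h1
    simp only at h2 h3
    rw [Set.mem_singleton_iff]
    refine hφ v.1 n h2 ?_
    have : Multiplicative.toAdd (φ n) = 0 := by omega
    exact this

end Pool.Agent.helper84.FJ3
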