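import Pool.Agent.helper34.FJ3.DefsB

set_option autoImplicit false
set_option linter.unusedVariables false

/-!
# Polar coordinates in the sectors at a vertex (module B4c)
-/

namespace Pool.Agent.helper84.FJ3

open Pool.Agent.helper34.FJ2 Pool.Agent.helper34.FJ3
open scoped BigOperators

/-! ## A sector of the plane -/

/-- `(r, s)` are the polar coordinates of the vector with the coordinates `x`, `y` with respect
to two unit vectors with the angle `ω` -/
structure PC (ω x y r s : ℝ) : Prop where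
  r0 : 0 ≤ r
  s0 : 0 ≤ s
  s1 : s ≤ ω
  c : x + y * Real.cos ω = r * Real.cos s
  d : y * Real.sin ω = r * Real.sin s

theorem PC.sq {ω x y r s : ℝ} (h : PC ω x y r s) :
    r ^ 2 = (x + y * Real.cos ω) ^ 2 + (y * Real.sin ω) ^ 2 := by
  rw [h.c, h.d]
  have := Real.sin_sq_add_cos_sq s
  linear_combination (-r ^ 2) * this

theorem PC.flip {ω x y r s : ℝ} (h : PC ω x y r s) : PC ω y x r (ω - s) where
  r0 := h.r0
  s0 := by linarith [h.s1]
  s1 := by linarith [h.s0]
  c := by
    rw [Real.cos_sub]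
    have := Real.sin_sq_add_cos_sq ω
    linear_combination (Real.cos ω) * h.c + (Real.sin ω) * h.d - y * this
  d := by
    rw [Real.sin_sub]
    linear_combination (Real.sin ω) * h.c - (Real.cos ω) * h.d

theorem PC.left {ω x : ℝ} (h0 : 0 ≤ ω) (hx : 0 ≤ x) : PC ω x 0 x 0 where
  r0 := hx
  s0 := le_rfl
  s1 := h0
  c := by simp
  d := by simp

theorem PC.right {ω y : ℝ} (h0 : 0 ≤ ω) (hy : 0 ≤ y) : PC ω 0 y y ω where
  r0 := hy
  s0 := h0
  s1 := le_rfl
  c := by simp
  d := rfl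

theorem PC.pos {ω x y r s : ℝ} (h : PC ω x y r s) (h0 : 0 < ω) (h1 : ω < Real.pi)
    (hxy : x ≠ 0 ∨ y ≠ 0) : 0 < r := by
  rcases h.r0.lt_or_eq with h2 | h2
  · exact h2
  · exfalso
    have h3 := h.c
    have h4 := h.d
    rw [← h2, zero_mul] at h3 h4
    have h5 := Real.sin_pos_of_pos_of_lt_pi h0 h1
    have h6 : y = 0 := by
      rcases mul_eq_zero.1 h4 with h | h
      · exact h
      · exact absurd h h5.ne'
    rw [h6, zero_mul, add_zero] at h3
    exact hxy.elim (fun h => h h3) fun h => h h6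

theorem PC.exists {ω x y : ℝ} (h0 : 0 < ω) (h1 : ω < Real.pi) (hx : 0 ≤ x) (hy : 0 ≤ y) :
    ∃ r s, PC ω x y r s := by
  have hsin := Real.sin_pos_of_pos_of_lt_pi h0 h1
  set A := x + y * Real.cos ω with hA
  set B := y * Real.sin ω with hB
  have hB0 : 0 ≤ B := mul_nonneg hy hsin.le
  set r := Real.sqrt (A ^ 2 + B ^ 2) with hr
  have hr2 : r ^ 2 = A ^ 2 + B ^ 2 := Real.sq_sqrt (by positivity)
  have hr0 : 0 ≤ r := Real.sqrt_nonneg _
  rcases hr0.lt_or_eq with hpos | hz
  · have hAr : |A / r| ≤ 1 := by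
      rw [abs_div, abs_of_pos hpos, div_le_one hpos]
      exact abs_le_of_sq_le_sq (by nlinarith [sq_nonneg B]) hr0
    rw [abs_le] at hAr
    set s := Real.arccos (A / r) with hs
    have hcos : Real.cos s = A / r := Real.cos_arccos hAr.1 hAr.2
    have hs0 : 0 ≤ s := Real.arccos_nonneg _
    have hspi : s ≤ Real.pi := Real.arccos_le_pi _
    have hsin' : Real.sin s = B / r := by
      have e1 : 0 ≤ Real.sin s := Real.sin_nonneg_of_nonneg_of_le_pi hs0 hspi
      have e2 : Real.sin s ^ 2 = (B / r) ^ 2 := by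
        have e3 := Real.sin_sq_add_cos_sq s
        rw [hcos] at e3
        have e4 : Real.sin s ^ 2 = 1 - (A / r) ^ 2 := by linarith
        rw [e4, div_pow, div_pow, eq_div_iff (by positivity), sub_mul, div_mul_cancel₀ _ (by positivity)]
        linarith
      have e3 : 0 ≤ B / r := div_nonneg hB0 hr0
      exact (pow_left_inj₀ e1 e3 (by norm_num)).1 e2
    refine ⟨r, s, hr0, hs0, ?_, ?_, ?_⟩
    · by_contra hcon
      push Not at hcon
      have e1 : Real.sin (ω - s) < 0 :=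
        Real.sin_neg_of_neg_of_neg_pi_lt (by linarith) (by linarith)
      have e2 : Real.sin (ω - s) = x * Real.sin ω / r := by
        rw [Real.sin_sub, hcos, hsin', hA, hB]
        ring
      rw [e2] at e1
      have e3 : 0 ≤ x * Real.sin ω / r := div_nonneg (mul_nonneg hx hsin.le) hr0
      linarith
    · rw [hcos, mul_div_cancel₀ _ hpos.ne']
    · rw [hsin', mul_div_cancel₀ _ hpos.ne']
  · have hA0 : A = 0 := by nlinarith [sq_nonneg A, sq_nonneg B]
    have hB0 : B = 0 := by nlinarith [sq_nonneg A, sq_nonneg B]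
    exact ⟨0, 0, le_rfl, le_rfl, h0.le, by rw [← hA, hA0]; simp, by rw [← hB, hB0]; simp⟩

/-- the law of cosines -/
theorem PC.dist {ω x y r s x' y' r' s' : ℝ} (h : PC ω x y r s) (h' : PC ω x' y' r' s') :
    r ^ 2 + r' ^ 2 - 2 * r * r' * Real.cos (s - s') =
      (x - x') ^ 2 + (y - y') ^ 2 + 2 * (x - x') * (y - y') * Real.cos ω := by
  have h1 := h.sq
  have h2 := h'.sq
  have h3 : r * r' * Real.cos (s - s') =
      (x + y * Real.cos ω) * (x' + y' * Real.cos ω) + (y * Real.sin ω) * (y' * Real.sin ω) := by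
    rw [Real.cos_sub, h.c, h.d, h'.c, h'.d]
    ring
  have h4 := Real.sin_sq_add_cos_sq ω
  have h5 : Real.sin ω ^ 2 = 1 - Real.cos ω ^ 2 := by linarith
  have h6 : r ^ 2 + r' ^ 2 - 2 * r * r' * Real.cos (s - s') =
      r ^ 2 + r' ^ 2 - 2 * (r * r' * Real.cos (s - s')) := by ring
  rw [h6, h3, h1, h2]
  have h7 : (y * Real.sin ω) ^ 2 = y ^ 2 * (1 - Real.cos ω ^ 2) := by rw [mul_pow, h5]
  have h8 : (y' * Real.sin ω) ^ 2 = y' ^ 2 * (1 - Real.cos ω ^ 2) := by rw [mul_pow, h5]
  have h9 : (y * Real.sin ω) * (y' * Real.sin ω) = y * y' * (1 - Real.cos ω ^ 2) := by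
    rw [← h5]; ring
  rw [h7, h8, h9]
  ring

theorem cos_corner {V : Type} {X : Complex2 V} {len : V → V → ℝ} (hn : NPC X len) {a b c : V}
    (h : X.tri a b c) :
    2 * len a b * len a c * Real.cos (corner len a b c) =
      len a b ^ 2 + len a c ^ 2 - len b c ^ 2 := by
  have h1 := hn.pos _ _ (X.tri_edge _ _ _ h)
  have h2 := hn.pos _ _ (X.tri_edge'' h)
  have h3 := hn.pos _ _ (X.tri_edge' h)
  have h4 := hn.triangle _ _ _ (X.tri_swap _ _ _ h)
  rw [hn.symm b a] at h4
  have h5 := hn.triangle _ _ _ h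
  have h6 := hn.triangle _ _ _ (X.tri_swap' h)
  rw [hn.symm c b] at h6
  rw [corner, Real.cos_arccos]
  · rw [mul_div_cancel₀ _ (by positivity)]
  · rw [le_div_iff₀ (by positivity)]
    nlinarith
  · rw [div_le_one (by positivity)]
    nlinarith [sq_nonneg (len a b - len a c)]

/-! ## The quadratic form -/

section

variable {V : Type}

theorem sum_sub_eq {v b c : V} (hbc : b ≠ c) (w : V →₀ ℝ) (hw : ∀ d, w d ≠ 0 → d = b ∨ d = c) :
    (w.sum fun _ r => r) = w b + w c := by
  classical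
  rw [Finsupp.sum_of_support_subset w (s := {b, c}) ?_ _ (fun _ _ => rfl)]
  · rw [Finset.sum_pair hbc]
  · intro d hd
    rw [Finsupp.mem_support_iff] at hd
    simpa using hw d hd

theorem sum_sub_eq1 {b : V} (w : V →₀ ℝ) (hw : ∀ d, w d ≠ 0 → d = b) :
    (w.sum fun _ r => r) = w b := by
  classical
  rw [Finsupp.sum_of_support_subset w (s := {b}) ?_ _ (fun _ _ => rfl)]
  · rw [Finset.sum_singleton]
  · intro d hd
    rw [Finsupp.mem_support_iff] at hd
    simpa using hw d hd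

theorem sqd_three (len : V → V → ℝ) (hsym : ∀ a b, len a b = len b a) {v b c : V} (hvb : v ≠ b)
    (hvc : v ≠ c) (hbc : b ≠ c) (z : V →₀ ℝ) (hz : ∀ d, z d ≠ 0 → d = v ∨ d = b ∨ d = c) :
    sqd len z = -(z v * z b * len v b ^ 2 + z v * z c * len v c ^ 2 + z b * z c * len b c ^ 2) := by
  classical
  have hsupp : z.support ⊆ {v, b, c} := by
    intro d hd
    rw [Finsupp.mem_support_iff] at hd
    simpa using hz d hd
  have key : ∀ (g : V → ℝ → ℝ), (∀ i, g i 0 = 0) →
      z.sum g = g v (z v) + g b (z b) + g c (z c) := by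
    intro g hg
    rw [Finsupp.sum_of_support_subset z hsupp _ (fun i _ => hg i)]
    rw [Finset.sum_insert (by simp [hvb, hvc]), Finset.sum_pair hbc]
    ring
  unfold sqd
  rw [key]
  · rw [key, key, key]
    · simp only [if_true, if_neg hvb, if_neg hvc, if_neg hbc, if_neg hvb.symm, if_neg hvc.symm,
        if_neg hbc.symm]
      rw [hsym b v, hsym c v, hsym c b]
      ring
    · intro i; simp
    · intro i; simp
    · intro i; simp
  · intro i
    simp

theorem sqd_two (len : V → V → ℝ) (hsym : ∀ a b, len a b = len b a) {v b : V} (hvb : v ≠ b)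
    (z : V →₀ ℝ) (hz : ∀ d, z d ≠ 0 → d = v ∨ d = b) :
    sqd len z = -(z v * z b * len v b ^ 2) := by
  classical
  have hsupp : z.support ⊆ {v, b} := by
    intro d hd
    rw [Finsupp.mem_support_iff] at hd
    simpa using hz d hd
  have key : ∀ (g : V → ℝ → ℝ), (∀ i, g i 0 = 0) → z.sum g = g v (z v) + g b (z b) := by
    intro g hg
    rw [Finsupp.sum_of_support_subset z hsupp _ (fun i _ => hg i)]
    rw [Finset.sum_pair hvb]
  unfold sqd
  rw [key]
  · rw [key, key]
    · simp only [if_true, if_neg hvb, if_neg hvb.symm]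
      rw [hsym b v]
      ring
    · intro i; simp
    · intro i; simp
  · intro i
    simp

theorem gD_tri {Y : Complex2 V} {len : V → V → ℝ} (hn : NPC Y len) {v b c : V}
    (h : Y.tri v b c) (X Z : Sec Y v) (hX : ∀ d, X.x d ≠ 0 → d = b ∨ d = c)
    (hZ : ∀ d, Z.x d ≠ 0 → d = b ∨ d = c) :
    Sec.gD len X Z = Real.sqrt ((X.x b * len v b - Z.x b * len v b) ^ 2 +
      (X.x c * len v c - Z.x c * len v c) ^ 2 +
      2 * (X.x b * len v b - Z.x b * len v b) * (X.x c * len v c - Z.x c * len v c) *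
        Real.cos (corner len v b c)) := by
  classical
  have hvb := Y.edge_ne (Y.tri_edge _ _ _ h)
  have hvc := Y.edge_ne (Y.tri_edge'' h)
  have hbc := Y.edge_ne (Y.tri_edge' h)
  have hw : ∀ d, (X.x - Z.x) d ≠ 0 → d = b ∨ d = c := by
    intro d hd
    by_contra hcon
    have h1 : X.x d = 0 := by
      by_contra h2
      exact hcon (hX d h2)
    have h2 : Z.x d = 0 := by
      by_contra h2
      exact hcon (hZ d h2)
    apply hd
    rw [Finsupp.sub_apply, h1, h2, sub_zero]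
  have hwv : (X.x - Z.x) v = 0 := by
    by_contra hcon
    exact (hw v hcon).elim hvb hvc
  unfold Sec.gD
  rw [sum_sub_eq (v := v) hbc _ hw, sqd_three len hn.symm hvb hvc hbc]
  · congr 1
    have e1 : ((X.x - Z.x) - Finsupp.single v ((X.x - Z.x) b + (X.x - Z.x) c)) v =
        -((X.x b - Z.x b) + (X.x c - Z.x c)) := by
      rw [Finsupp.sub_apply, hwv, Finsupp.single_eq_same, Finsupp.sub_apply, Finsupp.sub_apply]
      ring
    have e2 : ((X.x - Z.x) - Finsupp.single v ((X.x - Z.x) b + (X.x - Z.x) c)) b =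
        X.x b - Z.x b := by
      rw [Finsupp.sub_apply, Finsupp.single_eq_of_ne hvb.symm, Finsupp.sub_apply, sub_zero]
    have e3 : ((X.x - Z.x) - Finsupp.single v ((X.x - Z.x) b + (X.x - Z.x) c)) c =
        X.x c - Z.x c := by
      rw [Finsupp.sub_apply, Finsupp.single_eq_of_ne hvc.symm, Finsupp.sub_apply, sub_zero]
    rw [e1, e2, e3]
    have e4 := cos_corner hn h
    linear_combination (-(X.x b - Z.x b) * (X.x c - Z.x c)) * e4
  · intro d hd
    by_contra hcon
    push Not at hcon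
    have h1 : (X.x - Z.x) d = 0 := by
      by_contra h2
      exact (hw d h2).elim hcon.2.1 hcon.2.2
    apply hd
    rw [Finsupp.sub_apply, h1, Finsupp.single_eq_of_ne hcon.1, sub_zero]

theorem gD_edge {Y : Complex2 V} {len : V → V → ℝ} (hn : NPC Y len) {v b : V}
    (h : Y.edge v b) (X Z : Sec Y v) (hX : ∀ d, X.x d ≠ 0 → d = b)
    (hZ : ∀ d, Z.x d ≠ 0 → d = b) :
    Sec.gD len X Z = Real.sqrt ((X.x b * len v b - Z.x b * len v b) ^ 2) := by
  classical
  have hvb := Y.edge_ne h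
  have hw : ∀ d, (X.x - Z.x) d ≠ 0 → d = b := by
    intro d hd
    by_contra hcon
    have h1 : X.x d = 0 := by
      by_contra h2
      exact hcon (hX d h2)
    have h2 : Z.x d = 0 := by
      by_contra h2
      exact hcon (hZ d h2)
    apply hd
    rw [Finsupp.sub_apply, h1, h2, sub_zero]
  have hwv : (X.x - Z.x) v = 0 := by
    by_contra hcon
    exact hvb (hw v hcon)
  unfold Sec.gD
  rw [sum_sub_eq1 _ hw, sqd_two len hn.symm hvb]
  · congr 1
    have e1 : ((X.x - Z.x) - Finsupp.single v ((X.x - Z.x) b)) v = -(X.x b - Z.x b) := by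
      rw [Finsupp.sub_apply, hwv, Finsupp.single_eq_same, Finsupp.sub_apply]
      ring
    have e2 : ((X.x - Z.x) - Finsupp.single v ((X.x - Z.x) b)) b = X.x b - Z.x b := by
      rw [Finsupp.sub_apply, Finsupp.single_eq_of_ne hvb.symm, Finsupp.sub_apply, sub_zero]
    rw [e1, e2]
    ring
  · intro d hd
    by_contra hcon
    push Not at hcon
    have h1 : (X.x - Z.x) d = 0 := by
      by_contra h2
      exact hcon.2 (hw d h2)
    apply hd
    rw [Finsupp.sub_apply, h1, Finsupp.single_eq_of_ne hcon.1, sub_zero]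

end

/-! ## Polar coordinates -/

section

variable {V : Type} (Y : Complex2 V) (len : V → V → ℝ) (hn : NPC Y len)
    (hf : {r : ℝ | ∃ a b, Y.edge a b ∧ len a b = r}.Finite) (v : V)

/-- `p` are polar coordinates of `X` -/
def Rel (X : Sec Y v) (p : ℝ × (linkG Y len hn hf v).Pt) : Prop :=
  ((∀ d, X.x d = 0) ∧ p.1 = 0) ∨
  (∃ b, Y.edge v b ∧ (∀ d, X.x d ≠ 0 ↔ d = b) ∧ p.1 = X.x b * len v b ∧
    p.2 = (linkG Y len hn hf v).vtx b) ∨
  ∃ b c, Y.tri v b c ∧ (∀ d, X.x d ≠ 0 ↔ d = b ∨ d = c) ∧ p.2.b = b ∧ p.2.c = c ∧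
    PC (corner len v b c) (X.x b * len v b) (X.x c * len v c) p.1 p.2.s

theorem exists_rel (X : Sec Y v) : ∃ p, Rel Y len hn hf v X p := by
  by_cases hz : ∀ d, X.x d = 0
  · exact ⟨(0, (linkG Y len hn hf v).vtx v), Or.inl ⟨hz, rfl⟩⟩
  have hone : ∀ b, Y.edge v b → (∀ d, X.x d ≠ 0 → d = b) → ∃ p, Rel Y len hn hf v X p := by
    intro b hb h
    refine ⟨(X.x b * len v b, (linkG Y len hn hf v).vtx b), Or.inr (Or.inl ⟨b, hb, ?_, rfl, rfl⟩)⟩
    intro d
    refine ⟨h d, ?_⟩
    rintro rfl h0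
    apply hz
    intro e
    by_contra he
    rw [h e he] at he
    exact he h0
  rcases X.simp with h | ⟨b, hb, h⟩ | ⟨b, c, hbc, h⟩
  · exact absurd h hz
  · exact hone b hb h
  · by_cases hb : X.x b = 0
    · refine hone c (Y.tri_edge'' hbc) ?_
      intro d hd
      rcases h d hd with rfl | rfl
      · exact absurd hb hd
      · rfl
    by_cases hc : X.x c = 0
    · refine hone b (Y.tri_edge _ _ _ hbc) ?_
      intro d hd
      rcases h d hd with rfl | rfl
      · rfl
      · exact absurd hc hd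
    obtain ⟨r, s, hrs⟩ := PC.exists (corner_pos hn hbc) (corner_lt_pi hn hbc)
      (mul_nonneg (X.nn b) (hn.pos _ _ (Y.tri_edge _ _ _ hbc)).le)
      (mul_nonneg (X.nn c) (hn.pos _ _ (Y.tri_edge'' hbc)).le)
    refine ⟨(r, ⟨b, c, s, Or.inl ⟨hbc, hrs.s0, hrs.s1⟩⟩), Or.inr (Or.inr
      ⟨b, c, hbc, ?_, rfl, rfl, hrs⟩)⟩
    intro d
    refine ⟨h d, ?_⟩
    rintro (rfl | rfl)
    · exact hb
    · exact hc

variable {Y len hn hf v}

theorem Rel.nonneg {X : Sec Y v} {p : ℝ × (linkG Y len hn hf v).Pt}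
    (h : Rel Y len hn hf v X p) : 0 ≤ p.1 := by
  rcases h with ⟨_, h⟩ | ⟨b, hb, _, h, _⟩ | ⟨b, c, _, _, _, _, h⟩
  · exact h.ge
  · rw [h]
    exact mul_nonneg (X.nn b) (hn.pos _ _ hb).le
  · exact h.r0

theorem Rel.eq_zero_iff {X : Sec Y v} {p : ℝ × (linkG Y len hn hf v).Pt}
    (h : Rel Y len hn hf v X p) : p.1 = 0 ↔ ∀ b, X.x b = 0 := by
  rcases h with ⟨h1, h⟩ | ⟨b, hb, h1, h, _⟩ | ⟨b, c, htri, h1, _, _, h⟩
  · exact ⟨fun _ => h1, fun _ => h⟩
  · have hb' : X.x b ≠ 0 := (h1 b).2 rfl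
    constructor
    · intro h2
      rw [h] at h2
      rcases mul_eq_zero.1 h2 with h3 | h3
      · exact absurd h3 hb'
      · exact absurd h3 (hn.pos _ _ hb).ne'
    · intro h2
      exact absurd (h2 b) hb'
  · have hb' : X.x b ≠ 0 := (h1 b).2 (Or.inl rfl)
    constructor
    · intro h2
      have h3 := h.pos (corner_pos hn htri) (corner_lt_pi hn htri)
        (Or.inl (mul_ne_zero hb' (hn.pos _ _ (Y.tri_edge _ _ _ htri)).ne'))
      exact absurd h2 h3.ne'
    · intro h2
      exact absurd (h2 b) hb'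

theorem Rel.supp {X : Sec Y v} {p : ℝ × (linkG Y len hn hf v).Pt}
    (h : Rel Y len hn hf v X p) (hne : ∃ b, X.x b ≠ 0) :
    (∀ d, X.x d ≠ 0 → d = p.2.b ∨ d = p.2.c) ∧ (p.2.s = 0 → ∀ d, X.x d ≠ 0 → d = p.2.b) := by
  rcases h with ⟨h1, _⟩ | ⟨b, hb, h1, h2, h3⟩ | ⟨b, c, ht, h1, h2, h3, h4⟩
  · obtain ⟨d, hd⟩ := hne
    exact absurd (h1 d) hd
  · rw [h3]
    exact ⟨fun d hd => Or.inl ((h1 d).1 hd), fun _ d hd => (h1 d).1 hd⟩
  · rw [h2, h3]
    refine ⟨fun d hd => (h1 d).1 hd, fun hs => ?_⟩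
    exfalso
    have e1 := h4.d
    rw [hs, Real.sin_zero, mul_zero] at e1
    have hc : X.x c ≠ 0 := (h1 c).2 (Or.inr rfl)
    rcases mul_eq_zero.1 e1 with e2 | e2
    · rcases mul_eq_zero.1 e2 with e3 | e3
      · exact hc e3
      · exact (hn.pos _ _ (Y.tri_edge'' ht)).ne' e3
    · exact (Real.sin_pos_of_pos_of_lt_pi (corner_pos hn ht) (corner_lt_pi hn ht)).ne' e2

theorem link_zero {a : (linkG Y len hn hf v).Pt → (linkG Y len hn hf v).Pt → ℝ}
    (ha : IsLinkMetric (linkG Y len hn hf v) a) {x y z : (linkG Y len hn hf v).Pt}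
    (h1 : a x y = 0) (h2 : a y z = 0) : a x z = 0 := by
  have h3 := ha.tri x y z
  have h4 := ha.nonneg x z
  linarith

/-- the description in a given sector -/
theorem Rel.sector {a : (linkG Y len hn hf v).Pt → (linkG Y len hn hf v).Pt → ℝ}
    (ha : IsLinkMetric (linkG Y len hn hf v) a) {X : Sec Y v}
    {p : ℝ × (linkG Y len hn hf v).Pt} (h : Rel Y len hn hf v X p) {b c : V} (ht : Y.tri v b c)
    (hX : ∀ d, X.x d ≠ 0 → d = b ∨ d = c) (hne : ∃ d, X.x d ≠ 0) :
    ∃ θ : (linkG Y len hn hf v).Pt, θ.b = b ∧ θ.c = c ∧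
      PC (corner len v b c) (X.x b * len v b) (X.x c * len v c) p.1 θ.s ∧ a p.2 θ = 0 := by
  have hω := corner_pos hn ht
  have hbc := Y.edge_ne (Y.tri_edge' ht)
  have hlb := hn.pos _ _ (Y.tri_edge _ _ _ ht)
  have hlc := hn.pos _ _ (Y.tri_edge'' ht)
  rcases h with ⟨h1, _⟩ | ⟨b', hb', h1, h2, h3⟩ | ⟨b', c', ht', h1, h2, h3, h4⟩
  · obtain ⟨d, hd⟩ := hne
    exact absurd (h1 d) hd
  · rcases hX b' ((h1 b').2 rfl) with rfl | rfl
    · have hc0 : X.x c = 0 := by
        by_contra hcon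
        exact hbc ((h1 c).1 hcon).symm
      refine ⟨⟨b', c, 0, Or.inl ⟨ht, le_rfl, hω.le⟩⟩, rfl, rfl, ?_, ?_⟩
      · rw [hc0, zero_mul, h2]
        exact PC.left hω.le (mul_nonneg (X.nn _) hlb.le)
      · rw [h3]
        exact ha.same _ _ (Or.inl ⟨rfl, rfl, rfl⟩)
    · have hb0 : X.x b = 0 := by
        by_contra hcon
        exact hbc ((h1 b).1 hcon)
      refine ⟨⟨b, b', corner len v b b', Or.inl ⟨ht, hω.le, le_rfl⟩⟩, rfl, rfl, ?_, ?_⟩
      · rw [hb0, zero_mul, h2]
        exact PC.right hω.le (mul_nonneg (X.nn _) hlc.le)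
      · rw [h3]
        have ht' : Y.tri v b' b := Y.tri_swap' ht
        refine link_zero ha (y := ⟨b', b, 0, Or.inl ⟨ht', le_rfl, (corner_pos hn ht').le⟩⟩)
          (ha.same _ _ (Or.inl ⟨rfl, rfl, rfl⟩)) (ha.same _ _ (Or.inr ⟨ht', rfl, rfl, ?_⟩))
        change 0 = corner len v b' b - corner len v b b'
        rw [corner_symm hn v b' b, sub_self]
  · have hb1 := hX b' ((h1 b').2 (Or.inl rfl))
    have hc1 := hX c' ((h1 c').2 (Or.inr rfl))
    have hne' := Y.edge_ne (Y.tri_edge' ht')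
    rcases hb1 with rfl | rfl
    · rcases hc1 with rfl | rfl
      · exact absurd rfl hne'
      · exact ⟨p.2, h2, h3, h4, ha.refl _⟩
    · rcases hc1 with rfl | rfl
      · have h5 := h4.flip
        rw [corner_symm hn v b' c'] at h5
        refine ⟨⟨c', b', corner len v c' b' - p.2.s, Or.inl ⟨ht, h5.s0, h5.s1⟩⟩, rfl, rfl, h5, ?_⟩
        refine ha.same _ _ (Or.inr ⟨?_, h2, h3, ?_⟩)
        · rw [h2, h3]
          exact ht'
        · change p.2.s = corner len v p.2.b p.2.c - (corner len v c' b' - p.2.s)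
          rw [h2, h3, corner_symm hn v b' c']
          ring
      · exact absurd rfl hne'

theorem Rel.cdist {a : (linkG Y len hn hf v).Pt → (linkG Y len hn hf v).Pt → ℝ}
    (ha : IsLinkMetric (linkG Y len hn hf v) a) {X Z : Sec Y v}
    {p q : ℝ × (linkG Y len hn hf v).Pt} (hX : Rel Y len hn hf v X p)
    (hZ : Rel Y len hn hf v Z q) (hc : X.Comm Z) : cdist a p q = Sec.gD len X Z := by
  rcases hc with ⟨b, hb, h⟩ | ⟨b, c, ht, h⟩
  · rw [gD_edge hn hb X Z (fun d hd => h d (Or.inl hd)) (fun d hd => h d (Or.inr hd))]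
    have key : ∀ {X : Sec Y v} {p : ℝ × (linkG Y len hn hf v).Pt}, Rel Y len hn hf v X p →
        (∀ d, X.x d ≠ 0 → d = b) → p.1 = X.x b * len v b ∧
          (p.1 = 0 ∨ p.2 = (linkG Y len hn hf v).vtx b) := by
      intro X p hX hs
      rcases hX with ⟨h1, h2⟩ | ⟨b', hb', h1, h2, h3⟩ | ⟨b', c', ht', h1, h2, h3, h4⟩
      · rw [h1 b, h2]
        simp
      · have := hs b' ((h1 b').2 rfl)
        subst this
        exact ⟨h2, Or.inr h3⟩
      · exfalso
        have e1 := hs b' ((h1 b').2 (Or.inl rfl))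
        have e2 := hs c' ((h1 c').2 (Or.inr rfl))
        exact Y.edge_ne (Y.tri_edge' ht') (e1.trans e2.symm)
    obtain ⟨e1, e2⟩ := key hX (fun d hd => h d (Or.inl hd))
    obtain ⟨e3, e4⟩ := key hZ (fun d hd => h d (Or.inr hd))
    rw [← e1, ← e3]
    unfold Pool.Agent.helper34.FJ3.cdist
    congr 1
    rcases e2 with e2 | e2
    · rw [e2]
      ring
    · rcases e4 with e4 | e4
      · rw [e4]
        ring
      · rw [e2, e4, ha.refl, Real.cos_zero]
        ring
  · have hX1 : ∀ d, X.x d ≠ 0 → d = b ∨ d = c := fun d hd => h d (Or.inl hd)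
    have hZ1 : ∀ d, Z.x d ≠ 0 → d = b ∨ d = c := fun d hd => h d (Or.inr hd)
    rw [gD_tri hn ht X Z hX1 hZ1]
    have hω := corner_pos hn ht
    -- a description in the sector, also for the zero vector
    have key : ∀ {X : Sec Y v} {p : ℝ × (linkG Y len hn hf v).Pt}, Rel Y len hn hf v X p →
        (∀ d, X.x d ≠ 0 → d = b ∨ d = c) → ∃ θ : (linkG Y len hn hf v).Pt, θ.b = b ∧ θ.c = c ∧
      PC (corner len v b c) (X.x b * len v b) (X.x c * len v c) p.1 θ.s ∧
        (p.1 = 0 ∨ a p.2 θ = 0) := by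
      intro X p hX hs
      by_cases hz : ∀ d, X.x d = 0
      · refine ⟨⟨b, c, 0, Or.inl ⟨ht, le_rfl, hω.le⟩⟩, rfl, rfl, ?_, Or.inl (hX.eq_zero_iff.2 hz)⟩
        rw [hX.eq_zero_iff.2 hz, hz b, hz c, zero_mul, zero_mul]
        exact PC.left hω.le le_rfl
      · push Not at hz
        obtain ⟨θ, h1, h2, h3, h4⟩ := hX.sector ha ht hs hz
        exact ⟨θ, h1, h2, h3, Or.inr h4⟩
    obtain ⟨θ, h1, h2, h3, h4⟩ := key hX hX1
    obtain ⟨η, h1', h2', h3', h4'⟩ := key hZ hZ1
    rw [← h3.dist h3']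
    unfold Pool.Agent.helper34.FJ3.cdist
    congr 1
    rcases h4 with h4 | h4
    · rw [h4]
      ring
    · rcases h4' with h4' | h4'
      · rw [h4']
        ring
      · have e1 : a p.2 q.2 = |θ.s - η.s| := by
          have f1 := ha.edge θ η (h1.trans h1'.symm) (h2.trans h2'.symm)
          have f2 := ha.tri p.2 θ q.2
          have f3 := ha.tri θ η q.2
          have f4 := ha.tri θ p.2 η
          have f5 := ha.tri p.2 q.2 η
          have f6 := ha.symm θ p.2
          have f7 := ha.symm η q.2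
          linarith
        rw [e1, Real.cos_abs]

theorem exists_polar_aux (a : (linkG Y len hn hf v).Pt → (linkG Y len hn hf v).Pt → ℝ)
    (ha : IsLinkMetric (linkG Y len hn hf v) a) :
    ∃ pol : Sec Y v → ℝ × (linkG Y len hn hf v).Pt,
      (∀ X, 0 ≤ (pol X).1) ∧ (∀ X, (pol X).1 = 0 ↔ ∀ b, X.x b = 0) ∧
      (∀ X Z, X.Comm Z → Pool.Agent.helper34.FJ3.cdist a (pol X) (pol Z) = Sec.gD len X Z) ∧
      (∀ X b, (∀ d, X.x d ≠ 0 ↔ d = b) → a (pol X).2 ((linkG Y len hn hf v).vtx b) = 0) ∧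
      (∀ X, (∃ b, X.x b ≠ 0) → Y.edge v (pol X).2.b) ∧
      (∀ (r : ℝ) (θ : (linkG Y len hn hf v).Pt), 0 < r → Y.edge v θ.b →
        ∃ X : Sec Y v, (pol X).1 = r ∧ a (pol X).2 θ = 0 ∧
          (∀ d, X.x d ≠ 0 → d = θ.b ∨ d = θ.c) ∧ (θ.s = 0 → ∀ d, X.x d ≠ 0 → d = θ.b)) ∧
      ∀ X : Sec Y v, (∃ b, X.x b ≠ 0) → (∀ d, X.x d ≠ 0 → d = (pol X).2.b ∨ d = (pol X).2.c) ∧
        ((pol X).2.s = 0 → ∀ d, X.x d ≠ 0 → d = (pol X).2.b) := by
  classical
  choose pol hpol using exists_rel Y len hn hf v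
  refine ⟨pol, fun X => (hpol X).nonneg, fun X => (hpol X).eq_zero_iff,
    fun X Z h => (hpol X).cdist ha (hpol Z) h, ?_, ?_, ?_, fun X hX => (hpol X).supp hX⟩
  · intro X b h
    rcases hpol X with ⟨h1, _⟩ | ⟨b', hb', h1, h2, h3⟩ | ⟨b', c', ht', h1, h2, h3, h4⟩
    · exact absurd (h1 b) ((h b).2 rfl)
    · have : b' = b := (h b').1 ((h1 b').2 rfl)
      subst this
      rw [h3]
      exact ha.refl _
    · exfalso
      have e1 := (h b').1 ((h1 b').2 (Or.inl rfl))
      have e2 := (h c').1 ((h1 c').2 (Or.inr rfl))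
      exact Y.edge_ne (Y.tri_edge' ht') (e1.trans e2.symm)
  · rintro X ⟨b, hb⟩
    rcases hpol X with ⟨h1, _⟩ | ⟨b', hb', h1, h2, h3⟩ | ⟨b', c', ht', h1, h2, h3, h4⟩
    · exact absurd (h1 b) hb
    · rw [h3]
      exact hb'
    · rw [h2]
      exact Y.tri_edge _ _ _ ht'
  · rintro r ⟨b, c, s, hθ⟩ hr he
    simp only at he ⊢
    -- the case of a vertex
    have hvert : s = 0 → ∃ X : Sec Y v, (pol X).1 = r ∧ a (pol X).2 ⟨b, c, s, hθ⟩ = 0 ∧
          (∀ d, X.x d ≠ 0 → d = b ∨ d = c) ∧ (s = 0 → ∀ d, X.x d ≠ 0 → d = b) := by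
      intro hs
      have hl := hn.pos _ _ he
      have hne : r / len v b ≠ 0 := (div_pos hr hl).ne'
      have hsupp : ∀ d, (Finsupp.single b (r / len v b)) d ≠ 0 ↔ d = b := by
        intro d
        constructor
        · intro h
          by_contra hcon
          exact h (Finsupp.single_eq_of_ne hcon)
        · rintro rfl
          rw [Finsupp.single_eq_same]
          exact hne
      let X : Sec Y v :=
        { x := Finsupp.single b (r / len v b)
          nn := by
            intro d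
            by_cases h : d = b
            · subst h
              rw [Finsupp.single_eq_same]
              exact (div_pos hr hl).le
            · rw [Finsupp.single_eq_of_ne h]
          simp := Or.inr (Or.inl ⟨b, he, fun d hd => (hsupp d).1 hd⟩) }
      refine ⟨X, ?_, ?_, fun d hd => Or.inl ((hsupp d).1 hd), fun _ d hd => (hsupp d).1 hd⟩
      · rcases hpol X with ⟨h1, _⟩ | ⟨b', hb', h1, h2, h3⟩ | ⟨b', c', ht', h1, h2, h3, h4⟩
        · exact absurd (h1 b) ((hsupp b).2 rfl)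
        · have : b' = b := (hsupp b').1 ((h1 b').2 rfl)
          subst this
          rw [h2]
          change (Finsupp.single b' (r / len v b')) b' * len v b' = r
          rw [Finsupp.single_eq_same, div_mul_cancel₀ _ hl.ne']
        · exfalso
          have e1 := (hsupp b').1 ((h1 b').2 (Or.inl rfl))
          have e2 := (hsupp c').1 ((h1 c').2 (Or.inr rfl))
          exact Y.edge_ne (Y.tri_edge' ht') (e1.trans e2.symm)
      · rcases hpol X with ⟨h1, _⟩ | ⟨b', hb', h1, h2, h3⟩ | ⟨b', c', ht', h1, h2, h3, h4⟩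
        · exact absurd (h1 b) ((hsupp b).2 rfl)
        · have : b' = b := (hsupp b').1 ((h1 b').2 rfl)
          subst this
          rw [h3]
          exact ha.same _ _ (Or.inl ⟨rfl, rfl, hs⟩)
        · exfalso
          have e1 := (hsupp b').1 ((h1 b').2 (Or.inl rfl))
          have e2 := (hsupp c').1 ((h1 c').2 (Or.inr rfl))
          exact Y.edge_ne (Y.tri_edge' ht') (e1.trans e2.symm)
    by_cases hs : s = 0
    · exact hvert hs
    rcases hθ with ⟨ht, hs0, hs1⟩ | ⟨_, h⟩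
    swap
    · exact absurd h hs
    have ht' : Y.tri v b c := ht
    have hs1' : s ≤ corner len v b c := hs1
    have hω := corner_pos hn ht'
    have hω' := corner_lt_pi hn ht'
    have hsin := Real.sin_pos_of_pos_of_lt_pi hω hω'
    have hlb := hn.pos _ _ (Y.tri_edge _ _ _ ht')
    have hlc := hn.pos _ _ (Y.tri_edge'' ht')
    have hbc := Y.edge_ne (Y.tri_edge' ht')
    set ω := corner len v b c with hωdef
    set β := r * Real.sin (ω - s) / (Real.sin ω * len v b) with hβ
    set γ := r * Real.sin s / (Real.sin ω * len v c) with hγ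
    have hβ0 : 0 ≤ β := by
      apply div_nonneg
      · exact mul_nonneg hr.le (Real.sin_nonneg_of_nonneg_of_le_pi (by linarith) (by linarith))
      · exact mul_nonneg hsin.le hlb.le
    have hγ0 : 0 < γ := by
      apply div_pos
      · exact mul_pos hr (Real.sin_pos_of_pos_of_lt_pi (lt_of_le_of_ne hs0 (Ne.symm hs))
          (by linarith))
      · exact mul_pos hsin hlc
    have eb : (Finsupp.single b β + Finsupp.single c γ) b = β := by
      rw [Finsupp.add_apply, Finsupp.single_eq_same, Finsupp.single_eq_of_ne hbc, add_zero]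
    have ec : (Finsupp.single b β + Finsupp.single c γ) c = γ := by
      rw [Finsupp.add_apply, Finsupp.single_eq_same, Finsupp.single_eq_of_ne hbc.symm, zero_add]
    have hsupp : ∀ d, (Finsupp.single b β + Finsupp.single c γ) d ≠ 0 → d = b ∨ d = c := by
      intro d h
      by_contra hcon
      push Not at hcon
      apply h
      rw [Finsupp.add_apply, Finsupp.single_eq_of_ne hcon.1, Finsupp.single_eq_of_ne hcon.2,
        add_zero]
    let X : Sec Y v :=
      { x := Finsupp.single b β + Finsupp.single c γ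
        nn := by
          intro d
          by_cases h : d = b
          · subst h
            rw [eb]
            exact hβ0
          · by_cases h' : d = c
            · subst h'
              rw [ec]
              exact hγ0.le
            · rw [Finsupp.add_apply, Finsupp.single_eq_of_ne h, Finsupp.single_eq_of_ne h',
                add_zero]
        simp := Or.inr (Or.inr ⟨b, c, ht', hsupp⟩) }
    have hXb : X.x b = β := eb
    have hXc : X.x c = γ := ec
    have hpc : PC ω (X.x b * len v b) (X.x c * len v c) r s := by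
      rw [hXb, hXc]
      have e1 : β * len v b = r * Real.sin (ω - s) / Real.sin ω := by
        rw [hβ]
        field_simp
      have e2 : γ * len v c = r * Real.sin s / Real.sin ω := by
        rw [hγ]
        field_simp
      refine ⟨hr.le, hs0, hs1', ?_, ?_⟩
      · rw [e1, e2, Real.sin_sub]
        field_simp
        ring
      · rw [e2, div_mul_cancel₀ _ hsin.ne']
    obtain ⟨η, h1, h2, h3, h4⟩ := (hpol X).sector ha ht' hsupp ⟨c, by
      rw [hXc]
      exact hγ0.ne'⟩
    have hr' : (pol X).1 = r := by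
      have e1 := h3.sq
      have e2 := hpc.sq
      exact (pow_left_inj₀ h3.r0 hr.le (by norm_num)).1 (e1.trans e2.symm)
    have hs' : η.s = s := by
      have e1 := h3.c
      have e2 := hpc.c
      rw [hr'] at e1
      have e3 : Real.cos η.s = Real.cos s := by
        have := e1.symm.trans e2
        exact mul_left_cancel₀ hr.ne' this
      exact Real.injOn_cos ⟨h3.s0, h3.s1.trans hω'.le⟩ ⟨hs0, hs1'.trans hω'.le⟩ e3
    refine ⟨X, hr', ?_, hsupp, fun h => absurd h hs⟩
    refine link_zero ha h4 ?_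
    rw [ha.edge η ⟨b, c, s, _⟩ h1 h2]
    change |η.s - s| = 0
    rw [hs', sub_self, abs_zero]

end

theorem exists_polar {V : Type} (Y : Complex2 V) (len : V → V → ℝ) (hn : NPC Y len)
    (hf : {r : ℝ | ∃ a b, Y.edge a b ∧ len a b = r}.Finite) (v : V)
    (a : (linkG Y len hn hf v).Pt → (linkG Y len hn hf v).Pt → ℝ)
    (ha : IsLinkMetric (linkG Y len hn hf v) a) :
    ∃ pol : Sec Y v → ℝ × (linkG Y len hn hf v).Pt,
      (∀ X, 0 ≤ (pol X).1) ∧ (∀ X, (pol X).1 = 0 ↔ ∀ b, X.x b = 0) ∧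
      (∀ X Z, X.Comm Z → cdist a (pol X) (pol Z) = Sec.gD len X Z) ∧
      (∀ X b, (∀ d, X.x d ≠ 0 ↔ d = b) → a (pol X).2 ((linkG Y len hn hf v).vtx b) = 0) ∧
      (∀ X, (∃ b, X.x b ≠ 0) → Y.edge v (pol X).2.b) ∧
      (∀ (r : ℝ) (θ : (linkG Y len hn hf v).Pt), 0 < r → Y.edge v θ.b →
        ∃ X : Sec Y v, (pol X).1 = r ∧ a (pol X).2 θ = 0 ∧
          (∀ d, X.x d ≠ 0 → d = θ.b ∨ d = θ.c) ∧ (θ.s = 0 → ∀ d, X.x d ≠ 0 → d = θ.b)) ∧
      ∀ X : Sec Y v, (∃ b, X.x b ≠ 0) → (∀ d, X.x d ≠ 0 → d = (pol X).2.b ∨ d = (pol X).2.c) ∧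
        ((pol X).2.s = 0 → ∀ d, X.x d ≠ 0 → d = (pol X).2.b) :=
  exists_polar_aux a ha

end Pool.Agent.helper84.FJ3
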